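import Pool.Agent.H361.FU.Gr3

/-!
# The growth degrees of the groups `G_ω` have no complete Borel invariants

`ballO ω n` is the growth function of `G_ω` for the generators `a, b_ω, c_ω, d_ω`, as in the
library results for the same problem (module `H776R2.Om.Defs`).
-/

set_option autoImplicit false

namespace Pool.Agent.Results.MP_fbbd83_al.NoInvariants

open Pool.Agent.H776R2.Om Filter

/-- `f ≼ f'`: there is `C` with `f(n) ≤ f'(C n)` for all `n` -/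
def Le (f f' : ℕ → ℕ) : Prop := ∃ C : ℕ, ∀ n, f n ≤ f' (C * n)

/-- the equivalence `f ∼ f'` of the problem -/
def Eqv (f f' : ℕ → ℕ) : Prop := Le f f' ∧ Le f' f

/-- `ω` is not eventually constant -/
def NEC (ω : ℕ → Fin 3) : Prop := ∀ (i : Fin 3) (N : ℕ), ∃ n, N ≤ n ∧ ω n ≠ i

/-- **Theorem.** (1) Let `Θ` be a map from `Ω = {0,1,2}^ℕ` to a second countable `T₀` space such
that the preimages of the open sets have the Baire property (for example a Borel map to `ℝ`), and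
let `Θ` be an invariant of the growth degree: for `ω, ω'` not eventually constant,
`γ_ω ∼ γ_{ω'}` implies `Θ ω = Θ ω'`.  Then `Θ` is constant on a comeager set, and for a comeager
set of pairs `(ω, ω')`, both not eventually constant, `Θ ω = Θ ω'` while neither
`γ_ω ≼ γ_{ω'}` nor `γ_{ω'} ≼ γ_ω`.
(2) So no Borel map `Θ : Ω → ℝ` has `Θ ω = Θ ω'` exactly when `γ_ω ∼ γ_{ω'}`, for `ω, ω'` not
eventually constant. -/
theorem result :
    (∀ (Y : Type) [TopologicalSpace Y] [SecondCountableTopology Y] [T0Space Y]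
      (Θ : (ℕ → Fin 3) → Y), (∀ U : Set Y, IsOpen U → BaireMeasurableSet (Θ ⁻¹' U)) →
      (∀ ω ω' : ℕ → Fin 3, NEC ω → NEC ω' → Eqv (ballO ω) (ballO ω') → Θ ω = Θ ω') →
      (∃ y, ∀ᶠ ω in residual (ℕ → Fin 3), Θ ω = y) ∧
      ∀ᶠ p in residual ((ℕ → Fin 3) × (ℕ → Fin 3)), NEC p.1 ∧ NEC p.2 ∧ Θ p.1 = Θ p.2 ∧
        ¬ Le (ballO p.1) (ballO p.2) ∧ ¬ Le (ballO p.2) (ballO p.1)) ∧
    ¬ ∃ Θ : (ℕ → Fin 3) → ℝ, Measurable Θ ∧ ∀ ω ω' : ℕ → Fin 3, NEC ω → NEC ω' →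
      (Θ ω = Θ ω' ↔ Eqv (ballO ω) (ballO ω')) := by
  have hb : ∀ ω : ℕ → Fin 3, ballO ω = H361.FU.gr ω := fun ω => funext (H361.FU.ballO_eq ω)
  have main : ∀ (Y : Type) [TopologicalSpace Y] [SecondCountableTopology Y] [T0Space Y]
      (Θ : (ℕ → Fin 3) → Y), (∀ U : Set Y, IsOpen U → BaireMeasurableSet (Θ ⁻¹' U)) →
      (∀ ω ω' : ℕ → Fin 3, NEC ω → NEC ω' → Eqv (ballO ω) (ballO ω') → Θ ω = Θ ω') →
      (∃ y, ∀ᶠ ω in residual (ℕ → Fin 3), Θ ω = y) ∧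
      ∀ᶠ p in residual ((ℕ → Fin 3) × (ℕ → Fin 3)), NEC p.1 ∧ NEC p.2 ∧ Θ p.1 = Θ p.2 ∧
        ¬ Le (ballO p.1) (ballO p.2) ∧ ¬ Le (ballO p.2) (ballO p.1) := by
    intro Y _ _ _ Θ hΘ hinv
    obtain ⟨y, hy⟩ := H361.FU.tail_erg Θ hΘ (by
      rintro ω ω' hω ⟨K, hK⟩
      have hω' := H361.FU.Xi_tail hω K hK
      refine hinv ω ω' (H361.FU.Xi_nc hω) (H361.FU.Xi_nc hω') ?_
      rw [hb, hb]
      exact ⟨H361.FU.gr_tail hω' K fun n hn => (hK n hn).symm, H361.FU.gr_tail hω K hK⟩)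
    refine ⟨⟨y, hy⟩, ?_⟩
    have h1 := (tendsto_residual_of_isOpenMap (α := (ℕ → Fin 3) × (ℕ → Fin 3))
      continuous_fst isOpenMap_fst).eventually (hy.and H361.FU.gen_Xi)
    have h2 := (tendsto_residual_of_isOpenMap (α := (ℕ → Fin 3) × (ℕ → Fin 3))
      continuous_snd isOpenMap_snd).eventually (hy.and H361.FU.gen_Xi)
    filter_upwards [h1, h2, H361.FU.gr_pairs] with p hp1 hp2 hp3
    rw [hb, hb]
    exact ⟨H361.FU.Xi_nc hp1.2, H361.FU.Xi_nc hp2.2, hp1.1.trans hp2.1.symm, hp3.1, hp3.2⟩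
  refine ⟨main, ?_⟩
  rintro ⟨Θ, hm, h⟩
  have h1 := (main ℝ Θ (fun U hU => (hm hU.measurableSet).baireMeasurableSet)
    fun ω ω' hω hω' he => (h ω ω' hω hω').2 he).2
  obtain ⟨p, hp1, hp2, hp3, hp4, _⟩ := (dense_of_mem_residual h1).nonempty
  exact hp4 ((h p.1 p.2 hp1 hp2).1 hp3).1

end Pool.Agent.Results.MP_fbbd83_al.NoInvariants
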